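import Pool.Agent.Run7.h232.BG.Final

/-!
# Under CH there is a subgroup of `ℤ^ℕ` of size continuum satisfying `S₁(B_Ω, B_Γ)`
-/

open Run7.h232.BG

/-- The continuum hypothesis implies that some subgroup `G` of `ℤ^ℕ` (product topology) of
cardinality continuum satisfies `S₁(B_Ω, B_Γ)`. -/
theorem Pool.Agent.Results.MP_cc0654_lc.BorelGammaGroup.result
    (CH : (Cardinal.continuum : Cardinal.{0}) = Cardinal.aleph 1) :
    ∃ G : AddSubgroup (ℕ → ℤ), Cardinal.mk G = Cardinal.continuum ∧
      SelOne (BorelOmega G) (BorelGamma G) :=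
  exists_group CH
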